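import Mathlib
import Pool.Agent.Lib.MP_09d3b1_an.Defs
import Pool.Agent.Lib.MP_09d3b1_an.Manifold

set_option autoImplicit false

open scoped Manifold Bundle ContDiff

namespace Pool.Agent.Results.MP_09d3b1_an.Main

open Pool.Agent.Lib.MP_09d3b1_an

/-- Optimal-scaling free homotopy decompositions on the circle, for every compact smooth
Riemannian manifold `N` (with its Riemannian distance as `edist`). -/
theorem result
    {E : Type*} [NormedAddCommGroup E] [NormedSpace ℝ E] [FiniteDimensional ℝ E]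
    {H : Type*} [TopologicalSpace H] {I : ModelWithCorners ℝ E H}
    {N : Type*} [EMetricSpace N] [ChartedSpace H N] [IsManifold I ∞ N]
    [Bundle.RiemannianBundle (fun x : N => TangentSpace I x)]
    [IsContMDiffRiemannianBundle I ∞ E (fun x : N => TangentSpace I x)]
    [IsRiemannianManifold I N] [CompactSpace N] :
    ∃ ε₀ : ℝ, 0 < ε₀ ∧ ∃ C : ℝ, 0 < C ∧ ∀ lam : ℝ, 0 < lam →
      ∃ 𝓕 : Set C(Circle, N), 𝓕.Finite ∧ ∀ ε : ℝ, 0 < ε → ε < ε₀ → ∀ f : C(Circle, N),
        gapEnergy ε f ≤ ENNReal.ofReal lam →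
        ∃ (k : ℕ) (F : Fin k → C(Circle, N)), (∀ j, F j ∈ 𝓕) ∧ (k : ℝ) ≤ C * lam ∧
          HasFreeDecomp f k F := by
  obtain ⟨r, hr, hS⟩ := smallTrivial_of_compact (N := N) I
  exact main_metric (lengthLike_of_riemannian (J := I)) hr hS

end Pool.Agent.Results.MP_09d3b1_an.Main
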