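import Mathlib
import Pool.Agent.Lib.MP_09d3b1_an.Defs
import Pool.Agent.Lib.MP_09d3b1_an.Sharp.Defs
import Pool.Agent.Lib.MP_09d3b1_an.Sharp.Final

set_option autoImplicit false

open scoped Real

namespace Pool.Agent.Results.MP_09d3b1_an.SharpDegree

open Pool.Agent.Lib.MP_09d3b1_an Pool.Agent.Lib.MP_09d3b1_an.Sharp

/-- The optimal-scaling degree estimate on the circle with its sharp constant. The target is the
circle `ℝ / 2πℤ` of length `2π` with its geodesic distance (every map has exactly one degree,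
`Sharp.deg_unique`). For `0 < ε < π / 2` the infimum of the gap potential in degree `d` lies
between `(4π - 6ε) log 2 · |d|` and `(4π + 3ε) log 2 · |d|`. -/
theorem result (ε : ℝ) (h0 : 0 < ε) (h1 : ε < π / 2) (d : ℤ) :
    (⨅ (f : C(Circle, AddCircle (2 * π))) (_ : HasDeg f d), gapEnergy ε f) ∈
      Set.Icc (ENNReal.ofReal ((4 * π - 6 * ε) * Real.log 2 * |(d : ℝ)|))
        (ENNReal.ofReal ((4 * π + 3 * ε) * Real.log 2 * |(d : ℝ)|)) := by
  obtain ⟨f, hf, h⟩ := gap_upper h0 d
  exact ⟨le_iInf₂ fun _ h => gap_lower h0 h1 h, iInf₂_le_of_le f hf h⟩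

end Pool.Agent.Results.MP_09d3b1_an.SharpDegree
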